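import Pool.Agent.Helper85.IA.St
import Pool.Agent.Helper38.IA.Basic

/-!
# Project IA, part N, module RDG (new degrees)
-/

set_option autoImplicit false

namespace Pool.Agent.Helper81.IA85

open Finset Pool.Agent.Helper93.IA Pool.Agent.Helper85.IA

section deg

variable {α β : Type} [Fintype α] [Fintype β] [DecidableEq α] [DecidableEq β]

private theorem g1 (A I : Finset (α × β)) (k : α → β → ℝ)
    (hk : ∀ a b, k a b = if (a, b) ∈ I then 1 else 0) (a : α) :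
    (d1 (A \ I) a : ℝ) = ∑ b, (if (a, b) ∈ A then 1 - k a b else 0) := by
  rw [Pool.Agent.Helper38.IA.d1_eq_sum]
  apply Finset.sum_congr rfl
  intro b _
  rw [hk]
  by_cases h1 : (a, b) ∈ A <;> by_cases h2 : (a, b) ∈ I <;> simp [h1, h2]

private theorem g2 (A I : Finset (α × β)) (k : α → β → ℝ)
    (hk : ∀ a b, k a b = if (a, b) ∈ I then 1 else 0) (b : β) :
    (d2 (A \ I) b : ℝ) = ∑ a, (if (a, b) ∈ A then 1 - k a b else 0) := by
  rw [Pool.Agent.Helper38.IA.d2_eq_sum]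
  apply Finset.sum_congr rfl
  intro a _
  rw [hk]
  by_cases h1 : (a, b) ∈ A <;> by_cases h2 : (a, b) ∈ I <;> simp [h1, h2]

private theorem num {ε d η e x y : ℝ} {n : ℕ} (hε8 : ε ≤ 1 / 8) (hη : η ≤ e)
    (hy : y ≤ d * n) (h : x ≤ (1 - ε / 2) * y + η * n) : x ≤ ((1 - ε / 2) * d + e) * n := by
  have hn : (0 : ℝ) ≤ n := Nat.cast_nonneg n
  have h1 : (1 - ε / 2) * y ≤ (1 - ε / 2) * (d * n) :=
    mul_le_mul_of_nonneg_left hy (by linarith)
  have h2 : η * n ≤ e * n := mul_le_mul_of_nonneg_right hη hn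
  linarith

end deg

/-- RDG. -/
theorem hRDG : StRIM → StRDG := by
  intro hRIM α β γ _ _ _ _ _ _ Λ ε δ d η e n A B C x σ hε hε8 hη hD hR
  obtain ⟨k1, k2, k3⟩ := hRIM α β γ σ
  refine ⟨⟨fun a => ?_, fun b => ?_⟩, ⟨fun b => ?_, fun c => ?_⟩, ⟨fun c => ?_, fun a => ?_⟩⟩
  · exact num hε8 hη (hD.dA.1 a) (by rw [g1 A _ (kA σ) k1 a]; exact hR.dA1 a)
  · exact num hε8 hη (hD.dA.2 b) (by rw [g2 A _ (kA σ) k1 b]; exact hR.dA2 b)
  · exact num hε8 hη (hD.dB.1 b) (by rw [g1 B _ (kB σ) k2 b]; exact hR.dB1 b)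
  · exact num hε8 hη (hD.dB.2 c) (by rw [g2 B _ (kB σ) k2 c]; exact hR.dB2 c)
  · exact num hε8 hη (hD.dC.1 c) (by rw [g1 C _ (kC σ) k3 c]; exact hR.dC1 c)
  · exact num hε8 hη (hD.dC.2 a) (by rw [g2 C _ (kC σ) k3 a]; exact hR.dC2 a)

end Pool.Agent.Helper81.IA85
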