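import Pool.Agent.Helper85.IA.St

/-!
# Project IA, part N, module RND (one round of the nibble)
-/

set_option autoImplicit false

namespace Pool.Agent.Helper81.IA85

open Finset Pool.Agent.Helper93.IA Pool.Agent.Helper85.IA

/-- RND. -/
theorem hRND : StRS1 → StRPK → StRSM → StRDG → StRUN → StRND := by
  intro hRS1 hRPK hRSM hRDG hRUN Λ ε δ d η g hΛ hε hε8 hδ hδ4 hη hGood
  obtain ⟨n0, h0⟩ := hGood
  obtain ⟨η', hη'⟩ : ∃ η' : ℝ, η' = min η (ε ^ 2 / 4) := ⟨_, rfl⟩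
  have hη'0 : 0 < η' := by
    rw [hη']
    exact lt_min hη (by positivity)
  have hη'1 : η' ≤ η := by
    rw [hη']
    exact min_le_left _ _
  have hη'2 : η' ≤ ε ^ 2 / 4 := by
    rw [hη']
    exact min_le_right _ _
  obtain ⟨n1, hn1, h1⟩ := hRS1 Λ ε δ d η' hΛ hε hε8 hδ hδ4 hη'0
  refine ⟨max n0 (max n1 ⌈2 * Λ / ε⌉₊), ?_⟩
  intro α β γ _ _ _ _ _ _ n hn A B C x hD
  have hn0 : n0 ≤ n := le_trans (le_max_left _ _) hn
  have hn1' : n1 ≤ n := le_trans (le_trans (le_max_left _ _) (le_max_right _ _)) hn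
  have hn2 : ⌈2 * Λ / ε⌉₊ ≤ n := le_trans (le_trans (le_max_right _ _) (le_max_right _ _)) hn
  have hnp : 0 < n := lt_of_lt_of_le hn1 hn1'
  have hnr : (0 : ℝ) < n := by exact_mod_cast hnp
  have hΛn : Λ / n ≤ ε / 2 := by
    have h2 : 2 * Λ / ε ≤ n := le_trans (Nat.le_ceil _) (by exact_mod_cast hn2)
    rw [div_le_iff₀ hε] at h2
    rw [div_le_iff₀ hnr]
    linarith
  obtain ⟨σ, hσ⟩ := h1 α β γ n A B C x hn1' hD
  have hpack : Pack A B C (P1 σ) := hRPK α β γ A B C x σ hσ.pos hD.sup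
  obtain ⟨z0, z1, z2, z3, z4, z5, z6, z7, z8⟩ := hRSM α β γ Λ ε δ d η' n A B C x σ hΛ hε hε8 hδ
    hδ4 hη'0 hη'2 hnp hΛn hD hσ (nx σ (1 - 2 * ε + 2 * ε * δ + 23 / 4 * ε ^ 2) x)
    (fun _ _ _ => rfl)
  obtain ⟨g1, g2, g3⟩ := hRDG α β γ Λ ε δ d η' η n A B C x σ hε hε8 hη'1 hD hσ
  obtain ⟨Q, hQ, hQA, hQB, hQC⟩ := h0 α β γ n hn0 (A \ (P1 σ).image eA) (B \ (P1 σ).image eB)
    (C \ (P1 σ).image eC) (nx σ (1 - 2 * ε + 2 * ε * δ + 23 / 4 * ε ^ 2) x)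
    ⟨hD.nα, hD.nβ, hD.nγ, z0, z1, z2, z3, z4, z5, z6, z7, z8, g1, g2, g3⟩
  obtain ⟨hU, hUA, hUB, hUC⟩ := hRUN α β γ A B C (P1 σ) Q hpack hQ
  refine ⟨P1 σ ∪ Q, hU, ?_, ?_, ?_⟩
  · rw [hUA]
    exact hQA
  · rw [hUB]
    exact hQB
  · rw [hUC]
    exact hQC

end Pool.Agent.Helper81.IA85
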